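import Pool.Agent.L0h53.MO.RX

set_option autoImplicit false

namespace Pool.Agent.L0h53.MO

open Pool.Agent.L0h77.MO

theorem CJP (h : S_RE) : S_CJP := cjp h

end Pool.Agent.L0h53.MO
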