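import Pool.Agent.L0h77.MO.Stm3
import Pool.Agent.H37.RE

set_option autoImplicit false

namespace Pool.Agent.L0h53.MO

open Pool.Agent.L0h77.MO

theorem re_comp {α β : Type} [Primcodable α] [Primcodable β] {p : β → Prop} (hp : REPred p)
    {g : α → β} (hg : Computable g) : REPred fun a => p (g a) := Partrec.comp hp hg

theorem re_false {α : Type} [Primcodable α] : REPred fun _ : α => False := by
  have : ComputablePred fun _ : α => False :=
    ⟨fun _ => instDecidableFalse, (Computable.const false).of_eq fun _ => by simp⟩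
  exact this.to_re

theorem nc_one {G : Type} [Group G] : Subgroup.normalClosure ({1} : Set G) = ⊥ := by
  rw [eq_bot_iff]
  refine Subgroup.normalClosure_le_normal ?_
  intro x hx
  rw [Set.mem_singleton_iff.mp hx]
  exact Subgroup.one_mem _

theorem re_finset {α ι : Type} [Primcodable α] (s : Finset ι) (P : ι → α → Prop)
    (h : ∀ i, REPred (P i)) : REPred fun a => ∃ i ∈ s, P i a := by
  classical
  induction s using Finset.induction_on with
  | empty => exact re_false.of_eq fun a => by simp
  | insert i s _ ih => exact (Pool.Agent.H37.re_or (h i) ih).of_eq fun a => by simp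

/-- the inverse word -/
def iv {n : ℕ} (c : Wd n) : Wd n := (c.map fun x => (x.1, !x.2)).reverse

theorem iv_eq {n : ℕ} (c : Wd n) : iv c = FreeGroup.invRev c := rfl

theorem iv_comp {n : ℕ} : Computable (iv : Wd n → Wd n) := by
  have h1 : Primrec fun x : Wd n × (Fin n × Bool) => (x.2.1, !x.2.2) :=
    Primrec.pair (Primrec.fst.comp Primrec.snd)
      (Primrec.not.comp (Primrec.snd.comp Primrec.snd))
  exact (Primrec.list_reverse.comp (Primrec.list_map Primrec.id h1.to₂)).to_comp

theorem word_re (h : S_RE) {n : ℕ} {G : Type} [Group G] {φ : FreeGroup (Fin n) →* G}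
    (hφ : Function.Surjective φ) (hfin : φ.ker.IsFinitelyNormallyGenerated) :
    REPred fun w : Wd n => φ (FreeGroup.mk w) = 1 := by
  have h1 := re_comp (h n G φ hφ hfin)
    (g := fun w : Wd n => (([] : Wd n), w)) ((Computable.const []).pair Computable.id)
  refine h1.of_eq fun w => ?_
  have e : (FreeGroup.mk ([] : Wd n)) = 1 := rfl
  simp only [e, map_one]
  rw [nc_one]
  exact Subgroup.mem_bot

theorem exists_word {n : ℕ} (x : FreeGroup (Fin n)) : ∃ v : Wd n, FreeGroup.mk v = x :=
  ⟨x.toWord, FreeGroup.mk_toWord⟩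

theorem kuz (h : S_RE) : S_KUZ := by
  intro n G _ φ hφ hfin hs
  rw [ComputablePred.computable_iff_re_compl_re']
  refine ⟨word_re h hφ hfin, ?_⟩
  obtain ⟨g, hg⟩ := exists_ne (1 : G)
  obtain ⟨x, hx⟩ := hφ g
  obtain ⟨v, hv⟩ := exists_word x
  have h1 := re_comp (h n G φ hφ hfin)
    (g := fun w : Wd n => (w, v)) (Computable.id.pair (Computable.const v))
  refine h1.of_eq fun w => ?_
  simp only [hv, hx]
  constructor
  · intro h2 h3
    rw [h3, nc_one, Subgroup.mem_bot] at h2
    exact hg h2
  · intro h2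
    have h3 : Subgroup.normalClosure {φ (FreeGroup.mk w)} = ⊤ := by
      rcases (Subgroup.normalClosure_normal (s := {φ (FreeGroup.mk w)})).eq_bot_or_eq_top with h4 | h4
      · exfalso
        have h5 : φ (FreeGroup.mk w) ∈ Subgroup.normalClosure {φ (FreeGroup.mk w)} :=
          Subgroup.subset_normalClosure rfl
        rw [h4, Subgroup.mem_bot] at h5
        exact h2 h5
      · exact h4
    rw [h3]
    trivial

theorem conj_re (h : S_RE) {n : ℕ} {G : Type} [Group G] {φ : FreeGroup (Fin n) →* G}
    (hφ : Function.Surjective φ) (hfin : φ.ker.IsFinitelyNormallyGenerated) :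
    REPred fun p : Wd n × Wd n => IsConj (φ (FreeGroup.mk p.1)) (φ (FreeGroup.mk p.2)) := by
  have hc : Computable fun q : (Wd n × Wd n) × Wd n => q.2 ++ (q.1.1 ++ (iv q.2 ++ iv q.1.2)) := by
    have a1 : Computable fun q : (Wd n × Wd n) × Wd n => q.2 := Computable.snd
    have a2 : Computable fun q : (Wd n × Wd n) × Wd n => q.1.1 := Computable.fst.comp Computable.fst
    have a3 : Computable fun q : (Wd n × Wd n) × Wd n => iv q.2 := iv_comp.comp a1
    have a4 : Computable fun q : (Wd n × Wd n) × Wd n => iv q.1.2 :=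
      iv_comp.comp (Computable.snd.comp Computable.fst)
    exact Computable.list_append.comp a1 (Computable.list_append.comp a2
      (Computable.list_append.comp a3 a4))
  have h1 := re_comp (word_re h hφ hfin) hc
  have h2 := Pool.Agent.H37.re_exists
    (p := fun (q : Wd n × Wd n) (c : Wd n) => φ (FreeGroup.mk (c ++ (q.1 ++ (iv c ++ iv q.2)))) = 1) h1
  refine h2.of_eq fun q => ?_
  have key : ∀ c : Wd n, φ (FreeGroup.mk (c ++ (q.1 ++ (iv c ++ iv q.2)))) =
      φ (FreeGroup.mk c) * φ (FreeGroup.mk q.1) * (φ (FreeGroup.mk c))⁻¹ *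
        (φ (FreeGroup.mk q.2))⁻¹ := by
    intro c
    rw [← FreeGroup.mul_mk, ← FreeGroup.mul_mk, ← FreeGroup.mul_mk, iv_eq, iv_eq,
      ← FreeGroup.inv_mk, ← FreeGroup.inv_mk, map_mul, map_mul, map_mul, map_inv, map_inv]
    group
  rw [isConj_iff]
  constructor
  · rintro ⟨c, hc⟩
    refine ⟨φ (FreeGroup.mk c), ?_⟩
    rw [key, mul_inv_eq_one] at hc
    exact hc
  · rintro ⟨g, hg⟩
    obtain ⟨x, hx⟩ := hφ g
    obtain ⟨c, hc⟩ := exists_word x
    refine ⟨c, ?_⟩
    rw [key, mul_inv_eq_one, hc, hx]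
    exact hg

theorem cjp (h : S_RE) : S_CJP := by
  classical
  intro n G _ φ hφ hfin hF
  rw [ComputablePred.computable_iff_re_compl_re']
  have hconj := conj_re h hφ hfin
  refine ⟨hconj, ?_⟩
  have hr : ∀ i : ConjClasses G, ∃ v : Wd n, ConjClasses.mk (φ (FreeGroup.mk v)) = i := by
    intro i
    obtain ⟨g, rfl⟩ := ConjClasses.mk_surjective i
    obtain ⟨x, hx⟩ := hφ g
    obtain ⟨v, hv⟩ := exists_word x
    exact ⟨v, by rw [hv, hx]⟩
  choose r hr using hr
  have := Fintype.ofFinite (ConjClasses G)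
  let s : Finset (ConjClasses G × ConjClasses G) := Finset.univ.filter fun p => p.1 ≠ p.2
  have h1 : ∀ i : ConjClasses G × ConjClasses G, REPred fun p : Wd n × Wd n =>
      IsConj (φ (FreeGroup.mk p.1)) (φ (FreeGroup.mk (r i.1))) ∧
      IsConj (φ (FreeGroup.mk p.2)) (φ (FreeGroup.mk (r i.2))) := by
    intro i
    exact Pool.Agent.H37.re_and
      (re_comp hconj (g := fun p : Wd n × Wd n => (p.1, r i.1))
        (Computable.fst.pair (Computable.const _)))
      (re_comp hconj (g := fun p : Wd n × Wd n => (p.2, r i.2))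
        (Computable.snd.pair (Computable.const _)))
  refine (re_finset s _ h1).of_eq fun p => ?_
  simp only [← ConjClasses.mk_eq_mk_iff_isConj, hr]
  constructor
  · rintro ⟨i, hi, h2, h3⟩ h4
    rw [Finset.mem_filter] at hi
    exact hi.2 (by rw [← h2, ← h3, h4])
  · intro h2
    exact ⟨(ConjClasses.mk (φ (FreeGroup.mk p.1)), ConjClasses.mk (φ (FreeGroup.mk p.2))),
      by simpa [s] using h2, rfl, rfl⟩

end Pool.Agent.L0h53.MO
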